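import Mathlib

/-!
# S-units of real quadratic fields congruent to one, with prescribed conjugates (helper80)
-/

set_option autoImplicit false

open NumberField IsDedekindDomain Module

namespace Pool.Agent.Helper80.VO

/-! ### Density -/

/-- two real numbers of irrational ratio generate a dense subgroup -/
theorem dense_pair {x y : ℝ} (h : ∀ m n : ℤ, m * x = n * y → m = 0 ∧ n = 0) (z ε : ℝ)
    (hε : 0 < ε) : ∃ a b : ℤ, |a * x + b * y - z| < ε := by
  rcases AddSubgroup.dense_or_cyclic (AddSubgroup.closure {x, y}) with hd | ⟨g, hg⟩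
  · obtain ⟨w, hw1, hw2⟩ := Metric.dense_iff.1 hd z ε hε
    obtain ⟨a, b, rfl⟩ := AddSubgroup.mem_closure_pair.1 hw2
    refine ⟨a, b, ?_⟩
    rw [Metric.mem_ball, Real.dist_eq] at hw1
    simpa using hw1
  · exfalso
    have h1 : x ∈ AddSubgroup.closure {g} := by
      rw [← hg]
      exact AddSubgroup.subset_closure (by simp)
    have h2 : y ∈ AddSubgroup.closure {g} := by
      rw [← hg]
      exact AddSubgroup.subset_closure (by simp)
    obtain ⟨m, hm⟩ := AddSubgroup.mem_closure_singleton.1 h1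
    obtain ⟨n, hn⟩ := AddSubgroup.mem_closure_singleton.1 h2
    rw [zsmul_eq_mul] at hm hn
    have h3 : (n : ℝ) * x = m * y := by
      rw [← hm, ← hn]
      ring
    obtain ⟨-, h4⟩ := h n m h3
    rw [h4, Int.cast_zero, zero_mul] at hm
    have h5 := (h 1 0 (by rw [← hm]; simp)).1
    exact one_ne_zero h5

theorem indep_37 (m n : ℤ) (h : m * Real.log 3 = n * Real.log 7) : m = 0 ∧ n = 0 := by
  have h3 : 0 < Real.log 3 := Real.log_pos (by norm_num)
  have h7 : 0 < Real.log 7 := Real.log_pos (by norm_num)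
  have h1 : (m.natAbs : ℝ) * Real.log 3 = n.natAbs * Real.log 7 := by
    have h2 := congrArg (fun t : ℝ => |t|) h
    simp only [abs_mul, abs_of_pos h3, abs_of_pos h7] at h2
    rw [Nat.cast_natAbs, Nat.cast_natAbs, Int.cast_abs, Int.cast_abs]
    exact h2
  rw [← Real.log_pow, ← Real.log_pow] at h1
  have h2 : (3 : ℝ) ^ m.natAbs = 7 ^ n.natAbs := Real.log_injOn_pos
    (Set.mem_Ioi.2 (by positivity)) (Set.mem_Ioi.2 (by positivity)) h1
  have h4 : 3 ^ m.natAbs = 7 ^ n.natAbs := by exact_mod_cast h2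
  have h5 : m.natAbs = 0 := by
    by_contra h6
    have h8 : 3 ∣ 7 ^ n.natAbs := by
      rw [← h4]
      exact dvd_pow_self 3 h6
    have h9 := Nat.prime_three.dvd_of_dvd_pow h8
    omega
  have h6 : m = 0 := Int.natAbs_eq_zero.1 h5
  refine ⟨h6, ?_⟩
  rw [h6, Int.cast_zero, zero_mul] at h
  rcases mul_eq_zero.1 h.symm with h8 | h8
  · exact_mod_cast h8
  · exact absurd h8 h7.ne'

/-! ### Powers -/

section pw
variable {O : Type*} [CommRing O]

/-- numerator of `(P / Q) ^ n` -/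
def pw (P Q : O) (n : ℤ) : O := P ^ n.toNat * Q ^ (-n).toNat

theorem pw_coprime {P Q : O} (h : IsCoprime P Q) (n : ℤ) : IsCoprime (pw P Q n) (pw Q P n) := by
  unfold pw
  rcases le_total 0 n with hn | hn
  · rw [Int.toNat_eq_zero.2 (by omega : -n ≤ 0), pow_zero, mul_one, pow_zero, mul_one]
    exact h.pow
  · rw [Int.toNat_eq_zero.2 hn, pow_zero, one_mul, pow_zero, one_mul]
    exact h.symm.pow

theorem pw_cross {P Q R : O} (h1 : IsCoprime P R) (h2 : IsCoprime Q R) (n : ℤ) :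
    IsCoprime (pw P Q n) R := by
  unfold pw
  exact (h1.pow_left).mul_left h2.pow_left

/-- `x` divides a power of `m` -/
def Dv (m x : O) : Prop := ∃ N : ℕ, x ∣ m ^ N

theorem Dv.mul {m x y : O} (hx : Dv m x) (hy : Dv m y) : Dv m (x * y) := by
  obtain ⟨a, ha⟩ := hx
  obtain ⟨b, hb⟩ := hy
  exact ⟨a + b, by rw [pow_add]; exact mul_dvd_mul ha hb⟩

theorem Dv.pow {m x : O} (hx : Dv m x) (n : ℕ) : Dv m (x ^ n) := by
  obtain ⟨a, ha⟩ := hx
  exact ⟨a * n, by rw [pow_mul]; exact pow_dvd_pow_of_dvd ha n⟩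

theorem Dv.pw {m P Q : O} (hP : Dv m P) (hQ : Dv m Q) (n : ℤ) : Dv m (pw P Q n) :=
  (hP.pow _).mul (hQ.pow _)

theorem pw_map {F : Type*} [Field F] (f : O →+* F) {P Q : O} (hP : f P ≠ 0) (hQ : f Q ≠ 0)
    (n : ℤ) : f (pw P Q n) = (f P / f Q) ^ n * f (pw Q P n) := by
  unfold VO.pw
  rcases le_total 0 n with hn | hn
  · obtain ⟨k, rfl⟩ := Int.eq_ofNat_of_zero_le hn
    rw [Int.toNat_eq_zero.2 (by omega : -(k : ℤ) ≤ 0), pow_zero, mul_one, pow_zero, mul_one,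
      Int.toNat_natCast, zpow_natCast, map_pow, map_pow, div_pow, div_mul_cancel₀]
    exact pow_ne_zero _ hQ
  · obtain ⟨k, hk⟩ := Int.eq_ofNat_of_zero_le (by omega : 0 ≤ -n)
    have hk' : n = -(k : ℤ) := by
      rw [← neg_neg n, hk]
    subst hk'
    rw [Int.toNat_eq_zero.2 hn, pow_zero, one_mul, pow_zero, one_mul, neg_neg,
      Int.toNat_natCast, zpow_neg, zpow_natCast, map_pow, map_pow, div_pow, inv_div,
      div_mul_cancel₀]
    exact pow_ne_zero _ hP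

theorem pw_unit {F : Type*} [Field F] (f : O →+* F) {P Q : O} (h : P * Q = 1) (n : ℤ) :
    f (pw P Q n) = (f P) ^ n := by
  have h1 : f P * f Q = 1 := by rw [← map_mul, h, map_one]
  have hP : f P ≠ 0 := left_ne_zero_of_mul_eq_one h1
  have hQ : f Q = (f P)⁻¹ := eq_inv_of_mul_eq_one_right h1
  unfold VO.pw
  rw [map_mul, map_pow, map_pow, hQ]
  rcases le_total 0 n with hn | hn
  · obtain ⟨k, rfl⟩ := Int.eq_ofNat_of_zero_le hn
    rw [Int.toNat_eq_zero.2 (by omega : -(k : ℤ) ≤ 0), pow_zero, mul_one, Int.toNat_natCast,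
      zpow_natCast]
  · obtain ⟨k, hk⟩ := Int.eq_ofNat_of_zero_le (by omega : 0 ≤ -n)
    have hk' : n = -(k : ℤ) := by
      rw [← neg_neg n, hk]
    subst hk'
    rw [Int.toNat_eq_zero.2 hn, pow_zero, one_mul, neg_neg, Int.toNat_natCast, zpow_neg,
      zpow_natCast, inv_pow]

end pw

/-! ### Congruences -/

/-- elements prime to two are congruent to one modulo `2 ^ k` after raising to a fixed even power -/
theorem exists_exp {O : Type*} [CommRing O] (k : ℕ) [Finite (O ⧸ Ideal.span {(2 : O) ^ k})] :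
    ∃ e : ℕ, 0 < e ∧ Even e ∧ ∀ x : O, IsCoprime x 2 → (2 : O) ^ k ∣ x ^ e - 1 := by
  classical
  set I : Ideal O := Ideal.span {(2 : O) ^ k}
  refine ⟨2 * Nat.card (O ⧸ I)ˣ, by have := Nat.card_pos (α := (O ⧸ I)ˣ); omega,
    even_two_mul _, fun x hx => ?_⟩
  rw [← Ideal.mem_span_singleton, ← Ideal.Quotient.eq_zero_iff_mem, map_sub, map_pow, map_one,
    sub_eq_zero]
  obtain ⟨a, b, hab⟩ := hx.pow_right (n := k)
  have h1 : Ideal.Quotient.mk I a * Ideal.Quotient.mk I x = 1 := by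
    have h2 : Ideal.Quotient.mk I (b * 2 ^ k) = 0 :=
      Ideal.Quotient.eq_zero_iff_mem.2 (Ideal.mem_span_singleton.2 (dvd_mul_left _ _))
    rw [← map_mul, ← map_one (Ideal.Quotient.mk I), ← hab, map_add, h2, add_zero]
  let u : (O ⧸ I)ˣ := ⟨Ideal.Quotient.mk I x, Ideal.Quotient.mk I a, by rw [mul_comm]; exact h1, h1⟩
  have h3 : u ^ (2 * Nat.card (O ⧸ I)ˣ) = 1 := by
    rw [mul_comm, pow_mul, pow_card_eq_one', one_pow]
  have h4 := congrArg (Units.val) h3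
  simpa [u] using h4

/-! ### Real quadratic fields -/

section field
variable {K : Type} [Field K] [NumberField K]

theorem exists_coord {D : ℕ} (hD : ¬ IsSquare D) (hfin : finrank ℚ K = 2) {s : K}
    (hs : s ^ 2 = D) (x : K) : ∃ p q : ℚ, x = p + q * s := by
  have hli : LinearIndependent ℚ ![(1 : K), s] := by
    rw [LinearIndependent.pair_iff]
    intro a b hab
    rw [Algebra.smul_def, Algebra.smul_def, mul_one, eq_ratCast, eq_ratCast] at hab
    have hb : b = 0 := by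
      by_contra hb
      apply hD
      rw [← Rat.isSquare_natCast_iff]
      have hb' : (b : K) ≠ 0 := by exact_mod_cast hb
      have h1 : s = ((-a / b : ℚ) : K) := by
        push_cast
        field_simp
        linear_combination hab
      refine ⟨-a / b, ?_⟩
      have h2 : (((-a / b) * (-a / b) : ℚ) : K) = ((D : ℚ) : K) := by
        rw [Rat.cast_mul, ← h1, ← sq, hs]
        simp
      exact (Rat.cast_injective h2).symm
    refine ⟨?_, hb⟩
    rw [hb, Rat.cast_zero, zero_mul, add_zero] at hab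
    exact_mod_cast hab
  have htop := hli.span_eq_top_of_card_eq_finrank' (by simp [hfin])
  have hx : x ∈ Submodule.span ℚ (Set.range ![(1 : K), s]) := by
    rw [htop]
    exact Submodule.mem_top
  have hr : Set.range ![(1 : K), s] = {1, s} := by
    simp [Matrix.range_cons, Matrix.range_empty, Set.pair_comm]
  rw [hr, Submodule.mem_span_pair] at hx
  obtain ⟨a, b, hab⟩ := hx
  refine ⟨a, b, ?_⟩
  rw [← hab, Algebra.smul_def, Algebra.smul_def, mul_one, eq_ratCast, eq_ratCast]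

theorem conj_eq {D : ℕ} (hD : ¬ IsSquare D) (hfin : finrank ℚ K = 2) {s : K}
    (hs : s ^ 2 = D) {σ₁ σ₂ : K →+* ℝ} (hσ : σ₁ ≠ σ₂) : σ₂ s = -σ₁ s := by
  have h1 : (σ₂ s) ^ 2 = (σ₁ s) ^ 2 := by
    rw [← map_pow, ← map_pow, hs, map_natCast, map_natCast]
  rcases sq_eq_sq_iff_eq_or_eq_neg.1 h1 with h2 | h2
  · exfalso
    apply hσ
    ext x
    obtain ⟨p, q, rfl⟩ := exists_coord hD hfin hs x
    simp [h2]
  · exact h2

omit [NumberField K] in
/-- `1 + 42 s` is not a unit -/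
theorem not_unit {D : ℕ} (hD : 0 < D) {s : 𝓞 K} (hs : s ^ 2 = D) {σ₁ σ₂ : K →+* ℝ}
    (hσ : σ₂ s = -σ₁ s) : ¬ IsUnit (1 + 42 * s) := by
  intro hu
  obtain ⟨y, hy⟩ := hu.exists_right_inv
  have hr : (σ₁ s) ^ 2 = D := by
    have h1 := congrArg (fun t : 𝓞 K => σ₁ (t : K)) hs
    simpa using h1
  have hy1 : (1 + 42 * σ₁ s) * σ₁ y = 1 := by
    have h1 := congrArg (σ₁.comp (algebraMap (𝓞 K) K)) hy
    rw [map_mul, map_add, map_one, map_mul, map_ofNat] at h1
    exact h1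
  have hy2 : (1 - 42 * σ₁ s) * σ₂ y = 1 := by
    have h1 := congrArg (σ₂.comp (algebraMap (𝓞 K) K)) hy
    rw [map_mul, map_add, map_one, map_mul, map_ofNat] at h1
    have h2 : (1 + 42 * σ₂ s) * σ₂ y = 1 := h1
    rw [hσ] at h2
    linear_combination h2
  have hsum : σ₁ y + σ₂ y = ((2 / (1 - 1764 * D) : ℚ) : ℝ) := by
    have h3 : (1 - 1764 * (D : ℝ)) ≠ 0 := by
      have : (1 : ℝ) ≤ D := by exact_mod_cast hD
      intro h
      linarith
    push_cast
    rw [eq_div_iff h3]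
    have e1 : (1 - 1764 * (D : ℝ)) = (1 + 42 * σ₁ s) * (1 - 42 * σ₁ s) := by
      rw [← hr]
      ring
    rw [e1]
    linear_combination (1 - 42 * σ₁ s) * hy1 + (1 + 42 * σ₁ s) * hy2
  have hint : IsIntegral ℤ (σ₁ y + σ₂ y) := by
    have h4 : IsIntegral ℤ (y : K) := RingOfIntegers.isIntegral_coe y
    exact (h4.map σ₁.toIntAlgHom).add (h4.map σ₂.toIntAlgHom)
  rw [hsum] at hint
  have h5 : IsIntegral ℤ (2 / (1 - 1764 * D) : ℚ) := by
    have h6 : ((2 / (1 - 1764 * D) : ℚ) : ℝ) = algebraMap ℚ ℝ (2 / (1 - 1764 * D)) := rfl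
    rw [h6] at hint
    exact (isIntegral_algebraMap_iff (algebraMap ℚ ℝ).injective).1 hint
  obtain ⟨z, hz⟩ := IsIntegrallyClosed.isIntegral_iff.1 h5
  have hD' : (1 : ℚ) ≤ D := by exact_mod_cast hD
  have h7 : (1 - 1764 * (D : ℚ)) < 0 := by linarith
  have h8 : (z : ℚ) * (1 - 1764 * D) = 2 := by
    have : (z : ℚ) = 2 / (1 - 1764 * D) := hz
    rw [this, div_mul_cancel₀ _ h7.ne]
  have h9 : z * (1 - 1764 * (D : ℤ)) = 2 := by exact_mod_cast h8
  have h10 : (1 - 1764 * (D : ℤ)) ∣ 2 := Dvd.intro_left _ h9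
  have h11 := Int.le_of_dvd (by norm_num) ((neg_dvd).2 h10)
  have : (1 : ℤ) ≤ D := by exact_mod_cast hD
  linarith

/-- the fixed integer -/
def mm (D : ℕ) : ℕ := 21 * (1764 * D - 1)

theorem even_pow_exp {x : ℝ} (hx : x ≠ 0) {e : ℕ} (he : Even e) :
    x ^ e = Real.exp (e * Real.log |x|) := by
  rw [← Real.log_pow, Real.exp_log (pow_pos (abs_pos.2 hx) e), he.pow_abs]

theorem log_ratio {a b c d : ℤ} {p q : ℝ} (hp : p ≠ 0) (hq : q ≠ 0) :
    Real.log |(3 : ℝ) ^ a * 7 ^ b * p ^ c * q ^ d| =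
      a * Real.log 3 + b * Real.log 7 + (c * Real.log |p| + d * Real.log |q|) := by
  rw [abs_mul, abs_mul, abs_mul, Real.log_mul, Real.log_mul, Real.log_mul, abs_zpow, abs_zpow,
    abs_zpow, abs_zpow, Real.log_zpow, Real.log_zpow, Real.log_zpow, Real.log_zpow,
    abs_of_pos (by norm_num : (0 : ℝ) < 3), abs_of_pos (by norm_num : (0 : ℝ) < 7)]
  · ring
  all_goals positivity

theorem core {D : ℕ} (hD : ¬ IsSquare D) (s : 𝓞 K) (hs : s ^ 2 = D) {σ₁ σ₂ : K →+* ℝ}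
    (hσ : σ₂ s = -σ₁ s) (k : ℕ) (V : Set (ℝ × ℝ)) (hV : IsOpen V) (y : ℝ × ℝ) (hy : y ∈ V)
    (hy1 : 0 < y.1) (hy2 : 0 < y.2) :
    ∃ A B : 𝓞 K, A ≠ 0 ∧ B ≠ 0 ∧ IsCoprime A B ∧ (2 : 𝓞 K) ^ k ∣ A - B ∧
      Dv ((mm D : ℕ) : 𝓞 K) (A * B) ∧ (σ₁ A / σ₁ B, σ₂ A / σ₂ B) ∈ V := by
  have hD0 : 0 < D := by
    rcases Nat.eq_zero_or_pos D with h | h
    · exact absurd (h ▸ (⟨0, rfl⟩ : IsSquare 0)) hD
    · exact h
  obtain ⟨f₁, hf₁⟩ : ∃ f : 𝓞 K →+* ℝ, f = σ₁.comp (algebraMap (𝓞 K) K) := ⟨_, rfl⟩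
  obtain ⟨f₂, hf₂⟩ : ∃ f : 𝓞 K →+* ℝ, f = σ₂.comp (algebraMap (𝓞 K) K) := ⟨_, rfl⟩
  have f₁a : ∀ x : 𝓞 K, σ₁ x = f₁ x := fun x => by rw [hf₁]; rfl
  have f₂a : ∀ x : 𝓞 K, σ₂ x = f₂ x := fun x => by rw [hf₂]; rfl
  have inj₁ : Function.Injective f₁ := by
    rw [hf₁]
    exact σ₁.injective.comp (FaithfulSMul.algebraMap_injective (𝓞 K) K)
  have inj₂ : Function.Injective f₂ := by
    rw [hf₂]
    exact σ₂.injective.comp (FaithfulSMul.algebraMap_injective (𝓞 K) K)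
  simp only [f₁a, f₂a] at hσ ⊢
  -- the unit
  obtain ⟨x, z, hxz, hz⟩ := Pell.exists_of_not_isSquare (d := (D : ℤ)) (by exact_mod_cast hD0)
    (by rwa [Int.isSquare_natCast_iff])
  obtain ⟨β, hβ⟩ : ∃ β : 𝓞 K, β = 1 + 42 * s := ⟨_, rfl⟩
  obtain ⟨β', hβ'⟩ : ∃ β' : 𝓞 K, β' = 1 - 42 * s := ⟨_, rfl⟩
  obtain ⟨u, hu⟩ : ∃ u : 𝓞 K, u = x + z * s := ⟨_, rfl⟩
  obtain ⟨u', hu'⟩ : ∃ u' : 𝓞 K, u' = x - z * s := ⟨_, rfl⟩
  have hββ : β * β' = 1 - 1764 * (D : 𝓞 K) := by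
    rw [hβ, hβ', ← hs]
    ring
  have hβs : β + β' = 2 := by
    rw [hβ, hβ']
    ring
  have huu : u * u' = 1 := by
    have h1 : ((x ^ 2 - D * z ^ 2 : ℤ) : 𝓞 K) = 1 := by
      rw [hxz, Int.cast_one]
    push_cast at h1
    rw [hu, hu', ← h1, ← hs]
    ring
  have hu'u : u' * u = 1 := by rw [mul_comm]; exact huu
  -- values
  have v1 : f₂ β = f₁ β' := by
    rw [hβ, hβ', map_add, map_sub, map_mul, map_mul, map_one, map_one, map_ofNat, map_ofNat, hσ]
    ring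
  have v2 : f₂ β' = f₁ β := by
    rw [hβ, hβ', map_add, map_sub, map_mul, map_mul, map_one, map_one, map_ofNat, map_ofNat, hσ]
    ring
  have v3 : f₂ u = f₁ u' := by
    rw [hu, hu', map_add, map_sub, map_mul, map_mul, map_intCast, map_intCast, map_intCast,
      map_intCast, hσ]
    ring
  have hββ0 : β * β' ≠ 0 := by
    rw [hββ]
    intro h
    have h1 : ((1 - 1764 * D : ℤ) : 𝓞 K) = 0 := by
      push_cast
      exact h
    have h2 : (1 - 1764 * D : ℤ) = 0 := by exact_mod_cast h1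
    omega
  have hβ0 : β ≠ 0 := left_ne_zero_of_mul hββ0
  have hβ'0 : β' ≠ 0 := right_ne_zero_of_mul hββ0
  have g1 : ∀ {w : 𝓞 K}, w ≠ 0 → f₁ w ≠ 0 := fun hw h => hw (inj₁ (by rw [h, map_zero]))
  have g2 : ∀ {w : 𝓞 K}, w ≠ 0 → f₂ w ≠ 0 := fun hw h => hw (inj₂ (by rw [h, map_zero]))
  have hu0 : u ≠ 0 := left_ne_zero_of_mul_eq_one huu
  have hu'0 : u' ≠ 0 := left_ne_zero_of_mul_eq_one hu'u
  -- coprimality
  have c37 : IsCoprime (3 : 𝓞 K) 7 := ⟨-2, 1, by norm_num⟩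
  have cββ : IsCoprime β β' := ⟨β' + 882 * D, 882 * D, by
    linear_combination hββ + 882 * (D : 𝓞 K) * hβs⟩
  have c3β : IsCoprime (3 : 𝓞 K) β := ⟨588 * D, β', by linear_combination hββ⟩
  have c3β' : IsCoprime (3 : 𝓞 K) β' := ⟨588 * D, β, by linear_combination hββ⟩
  have c7β : IsCoprime (7 : 𝓞 K) β := ⟨252 * D, β', by linear_combination hββ⟩
  have c7β' : IsCoprime (7 : 𝓞 K) β' := ⟨252 * D, β, by linear_combination hββ⟩
  have cβ2 : IsCoprime β 2 := ⟨β', 882 * D, by linear_combination hββ⟩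
  have cβ'2 : IsCoprime β' 2 := ⟨β, 882 * D, by linear_combination hββ⟩
  have c32 : IsCoprime (3 : 𝓞 K) 2 := ⟨1, -1, by norm_num⟩
  have c72 : IsCoprime (7 : 𝓞 K) 2 := ⟨1, -3, by norm_num⟩
  have cu : ∀ w : 𝓞 K, IsCoprime u w := fun w => ⟨u', 0, by linear_combination huu⟩
  have cu' : ∀ w : 𝓞 K, IsCoprime u' w := fun w => ⟨u, 0, by linear_combination huu⟩
  have c1 : ∀ w : 𝓞 K, IsCoprime 1 w := fun w => isCoprime_one_left
  -- independence
  have hLM : ∀ c d : ℤ, c * Real.log |f₁ β / f₁ β'| = d * Real.log |f₁ u| → c = 0 ∧ d = 0 := by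
    intro c d hcd
    have hc : c = 0 := by
      by_contra hc
      have h1 : |f₁ β / f₁ β'| ^ c = |f₁ u| ^ d := by
        apply Real.log_injOn_pos
        · exact Set.mem_Ioi.2 (zpow_pos (abs_pos.2 (div_ne_zero (g1 hβ0) (g1 hβ'0))) _)
        · exact Set.mem_Ioi.2 (zpow_pos (abs_pos.2 (g1 hu0)) _)
        · rw [Real.log_zpow, Real.log_zpow]
          exact hcd
      have h2 : (f₁ β / f₁ β') ^ (2 * c) = (f₁ u) ^ (2 * d) := by
        rw [zpow_mul, zpow_mul, zpow_ofNat, zpow_ofNat, ← sq_abs (f₁ β / f₁ β'), ← sq_abs (f₁ u),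
          ← zpow_natCast, ← zpow_natCast, ← zpow_mul, ← zpow_mul, mul_comm _ c, mul_comm _ d,
          zpow_mul, zpow_mul, h1]
      have h3 : pw β β' (2 * c) = pw u u' (2 * d) * pw β' β (2 * c) := by
        apply inj₁
        rw [map_mul, pw_map f₁ (g1 hβ0) (g1 hβ'0), pw_unit f₁ huu, h2]
      have h4 : IsUnit (pw β β' (2 * c)) := by
        have h5 : IsCoprime (pw β β' (2 * c)) (pw β' β (2 * c)) := pw_coprime cββ _
        have h6 : pw β β' (2 * c) ∣ pw u u' (2 * d) :=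
          h5.dvd_of_dvd_mul_right (h3 ▸ dvd_refl _)
        have h7 : IsUnit (pw u u' (2 * d)) := by
          unfold pw
          exact ((IsUnit.of_mul_eq_one _ huu).pow _).mul ((IsUnit.of_mul_eq_one _ hu'u).pow _)
        exact isUnit_of_dvd_unit h6 h7
      have h5 : IsUnit (pw β' β (2 * c)) := by
        have h7 : pw β' β (2 * c) ∣ pw β β' (2 * c) := by
          rw [h3]
          exact dvd_mul_left _ _
        exact isUnit_of_dvd_unit h7 h4
      have h6 : IsUnit β := by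
        rcases lt_or_gt_of_ne hc with hc' | hc'
        · unfold pw at h5
          have h7 := isUnit_of_mul_isUnit_right h5
          exact (isUnit_pow_iff (by omega)).1 h7
        · unfold pw at h4
          have h7 := isUnit_of_mul_isUnit_left h4
          exact (isUnit_pow_iff (by omega)).1 h7
      rw [hβ] at h6
      exact not_unit (σ₁ := σ₁) (σ₂ := σ₂) hD0 hs (by rw [f₁a, f₂a]; exact hσ) h6
    refine ⟨hc, ?_⟩
    rw [hc, Int.cast_zero, zero_mul] at hcd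
    rcases mul_eq_zero.1 hcd.symm with h1 | h1
    · exact_mod_cast h1
    · exfalso
      have h2 : |f₁ u| = 1 := by
        have h3 := abs_pos.2 (g1 hu0)
        exact Real.eq_one_of_pos_of_log_eq_zero h3 h1
      have h3 : f₁ u * f₁ u' = 1 := by rw [← map_mul, huu, map_one]
      have h4 : (f₁ u) ^ 2 = 1 := by rw [← sq_abs, h2, one_pow]
      have h5 : f₁ u = f₁ u' := by
        have h6 : f₁ u * (f₁ u - f₁ u') = 0 := by linear_combination h4 - h3
        rcases mul_eq_zero.1 h6 with h7 | h7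
        · exact absurd h7 (g1 hu0)
        · linarith
      have h6 := inj₁ h5
      rw [hu, hu'] at h6
      have h7 : (z : 𝓞 K) * s = 0 := by
        have h8 : (2 : 𝓞 K) * (z * s) = 0 := by linear_combination h6
        rcases mul_eq_zero.1 h8 with h9 | h9
        · exact absurd h9 two_ne_zero
        · exact h9
      rcases mul_eq_zero.1 h7 with h8 | h8
      · exact hz (by exact_mod_cast h8)
      · rw [h8] at hs
        have h9 : (D : 𝓞 K) = 0 := by rw [← hs]; ring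
        have h10 : D = 0 := by exact_mod_cast h9
        omega
  -- the target
  have hcont : ContinuousAt (fun t : ℝ × ℝ => (Real.exp t.1, Real.exp t.2))
      (Real.log y.1, Real.log y.2) := by fun_prop
  have hy' : V ∈ nhds (Real.exp (Real.log y.1), Real.exp (Real.log y.2)) := by
    rw [Real.exp_log hy1, Real.exp_log hy2]
    exact hV.mem_nhds hy
  obtain ⟨δ, hδ, hball⟩ := Metric.mem_nhds_iff.1 (hcont.preimage_mem_nhds hy')
  -- the exponent
  have : Finite (𝓞 K ⧸ Ideal.span {(2 : 𝓞 K) ^ k}) :=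
    Ideal.finiteQuotientOfFreeOfNeBot _ (by
      rw [Ne, Ideal.span_singleton_eq_bot]
      exact pow_ne_zero _ two_ne_zero)
  obtain ⟨e, he, hee, hcong⟩ := exists_exp (O := 𝓞 K) k
  have he' : (0 : ℝ) < e := by exact_mod_cast he
  obtain ⟨a, b, hab⟩ := dense_pair indep_37 ((Real.log y.1 + Real.log y.2) / (2 * e))
    (δ / (2 * e)) (by positivity)
  obtain ⟨c, d, hcd⟩ := dense_pair hLM ((Real.log y.1 - Real.log y.2) / (2 * e))
    (δ / (2 * e)) (by positivity)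
  -- the elements
  obtain ⟨A, hA⟩ : ∃ A : 𝓞 K, A = pw 3 1 a * pw 7 1 b * pw β β' c * pw u u' d := ⟨_, rfl⟩
  obtain ⟨B, hB⟩ : ∃ B : 𝓞 K, B = pw 1 3 a * pw 1 7 b * pw β' β c := ⟨_, rfl⟩
  have n3 : (3 : 𝓞 K) ≠ 0 := by norm_num
  have n7 : (7 : 𝓞 K) ≠ 0 := by norm_num
  have pwne : ∀ {P Q : 𝓞 K} (n : ℤ), P ≠ 0 → Q ≠ 0 → pw P Q n ≠ 0 := fun n hP hQ =>
    mul_ne_zero (pow_ne_zero _ hP) (pow_ne_zero _ hQ)
  have hA0 : A ≠ 0 := by
    rw [hA]
    exact mul_ne_zero (mul_ne_zero (mul_ne_zero (pwne _ n3 one_ne_zero) (pwne _ n7 one_ne_zero))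
      (pwne _ hβ0 hβ'0)) (pwne _ hu0 hu'0)
  have hB0 : B ≠ 0 := by
    rw [hB]
    exact mul_ne_zero (mul_ne_zero (pwne _ one_ne_zero n3) (pwne _ one_ne_zero n7))
      (pwne _ hβ'0 hβ0)
  have cross : ∀ {P Q R S : 𝓞 K} (m n : ℤ), IsCoprime P R → IsCoprime P S → IsCoprime Q R →
      IsCoprime Q S → IsCoprime (pw P Q m) (pw R S n) := fun m n h1 h2 h3 h4 =>
    pw_cross (pw_cross h1.symm h2.symm n).symm (pw_cross h3.symm h4.symm n).symm m
  have hAB : IsCoprime A B := by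
    rw [hA, hB]
    refine IsCoprime.mul_left (IsCoprime.mul_left (IsCoprime.mul_left ?_ ?_) ?_) ?_
    · refine IsCoprime.mul_right (IsCoprime.mul_right ?_ ?_) ?_
      · exact pw_coprime isCoprime_one_right _
      · exact cross _ _ isCoprime_one_right c37 (c1 _) (c1 _)
      · exact cross _ _ c3β' c3β (c1 _) (c1 _)
    · refine IsCoprime.mul_right (IsCoprime.mul_right ?_ ?_) ?_
      · exact cross _ _ isCoprime_one_right c37.symm (c1 _) (c1 _)
      · exact pw_coprime isCoprime_one_right _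
      · exact cross _ _ c7β' c7β (c1 _) (c1 _)
    · refine IsCoprime.mul_right (IsCoprime.mul_right ?_ ?_) ?_
      · exact cross _ _ isCoprime_one_right c3β.symm isCoprime_one_right c3β'.symm
      · exact cross _ _ isCoprime_one_right c7β.symm isCoprime_one_right c7β'.symm
      · exact pw_coprime cββ _
    · exact pw_cross (cu _) (cu' _) _
  have hA2 : IsCoprime A 2 := by
    rw [hA]
    exact IsCoprime.mul_left (IsCoprime.mul_left (IsCoprime.mul_left (pw_cross c32 (c1 _) _)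
      (pw_cross c72 (c1 _) _)) (pw_cross cβ2 cβ'2 _)) (pw_cross (cu _) (cu' _) _)
  have hB2 : IsCoprime B 2 := by
    rw [hB]
    exact IsCoprime.mul_left (IsCoprime.mul_left (pw_cross (c1 _) c32 _)
      (pw_cross (c1 _) c72 _)) (pw_cross cβ'2 cβ2 _)
  -- divisors
  have dmm : ((mm D : ℕ) : 𝓞 K) = -(21 * (β * β')) := by
    rw [hββ, mm]
    have h1 : ((1764 * D - 1 : ℕ) : 𝓞 K) = 1764 * D - 1 := by
      rw [Nat.cast_sub (by omega)]
      push_cast
      ring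
    rw [Nat.cast_mul, h1]
    push_cast
    ring
  have d3 : Dv ((mm D : ℕ) : 𝓞 K) 3 := ⟨1, by
    rw [pow_one, dmm]
    exact ⟨-(7 * (β * β')), by ring⟩⟩
  have d7 : Dv ((mm D : ℕ) : 𝓞 K) 7 := ⟨1, by
    rw [pow_one, dmm]
    exact ⟨-(3 * (β * β')), by ring⟩⟩
  have dβ : Dv ((mm D : ℕ) : 𝓞 K) β := ⟨1, by
    rw [pow_one, dmm]
    exact ⟨-(21 * β'), by ring⟩⟩
  have dβ' : Dv ((mm D : ℕ) : 𝓞 K) β' := ⟨1, by
    rw [pow_one, dmm]
    exact ⟨-(21 * β), by ring⟩⟩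
  have d1 : Dv ((mm D : ℕ) : 𝓞 K) 1 := ⟨0, one_dvd _⟩
  have du : Dv ((mm D : ℕ) : 𝓞 K) u := ⟨0, by rw [pow_zero]; exact Dvd.intro _ huu⟩
  have du' : Dv ((mm D : ℕ) : 𝓞 K) u' := ⟨0, by rw [pow_zero]; exact Dvd.intro _ hu'u⟩
  have hdv : Dv ((mm D : ℕ) : 𝓞 K) (A * B) := by
    rw [hA, hB]
    exact (((d3.pw d1 _).mul (d7.pw d1 _)).mul (dβ.pw dβ' _)).mul (du.pw du' _) |>.mul
      (((d1.pw d3 _).mul (d1.pw d7 _)).mul (dβ'.pw dβ _))
  -- quotients
  have q1 : f₁ A / f₁ B = 3 ^ a * 7 ^ b * (f₁ β / f₁ β') ^ c * (f₁ u) ^ d := by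
    rw [div_eq_iff (g1 hB0), hA, hB]
    simp only [map_mul]
    rw [pw_map f₁ (g1 n3) (g1 one_ne_zero), pw_map f₁ (g1 n7) (g1 one_ne_zero),
      pw_map f₁ (g1 hβ0) (g1 hβ'0), pw_unit f₁ huu, map_one, map_ofNat, map_ofNat, div_one,
      div_one]
    ring
  have q2 : f₂ A / f₂ B = 3 ^ a * 7 ^ b * (f₂ β / f₂ β') ^ c * (f₂ u) ^ d := by
    rw [div_eq_iff (g2 hB0), hA, hB]
    simp only [map_mul]
    rw [pw_map f₂ (g2 n3) (g2 one_ne_zero), pw_map f₂ (g2 n7) (g2 one_ne_zero),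
      pw_map f₂ (g2 hβ0) (g2 hβ'0), pw_unit f₂ huu, map_one, map_ofNat, map_ofNat, div_one,
      div_one]
    ring
  have l2 : Real.log |f₂ β / f₂ β'| = -Real.log |f₁ β / f₁ β'| := by
    rw [v1, v2, ← Real.log_inv, ← abs_inv, inv_div]
  have l3 : Real.log |f₂ u| = -Real.log |f₁ u| := by
    have h3 : f₁ u' = (f₁ u)⁻¹ := eq_inv_of_mul_eq_one_right (by rw [← map_mul, huu, map_one])
    rw [v3, ← Real.log_inv, ← abs_inv, h3]
  refine ⟨A ^ e, B ^ e, pow_ne_zero _ hA0, pow_ne_zero _ hB0, hAB.pow, ?_, ?_, ?_⟩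
  · have h1 := dvd_sub (hcong A hA2) (hcong B hB2)
    rwa [sub_sub_sub_cancel_right] at h1
  · rw [← mul_pow]
    exact hdv.pow e
  · have h1 : f₁ A / f₁ B ≠ 0 := div_ne_zero (g1 hA0) (g1 hB0)
    have h2 : f₂ A / f₂ B ≠ 0 := div_ne_zero (g2 hA0) (g2 hB0)
    rw [map_pow, map_pow, map_pow, map_pow, ← div_pow, ← div_pow, even_pow_exp h1 hee,
      even_pow_exp h2 hee]
    have h3 : (e * Real.log |f₁ A / f₁ B|, e * Real.log |f₂ A / f₂ B|) ∈
        Metric.ball (Real.log y.1, Real.log y.2) δ := by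
      rw [q1, q2, log_ratio (div_ne_zero (g1 hβ0) (g1 hβ'0)) (g1 hu0),
        log_ratio (div_ne_zero (g2 hβ0) (g2 hβ'0)) (g2 hu0), l2, l3]
      have hab' := abs_lt.1 hab
      have hcd' := abs_lt.1 hcd
      have k1 : (Real.log y.1 + Real.log y.2) / (2 * e) * (2 * e) = Real.log y.1 + Real.log y.2 :=
        div_mul_cancel₀ _ (by positivity)
      have k2 : (Real.log y.1 - Real.log y.2) / (2 * e) * (2 * e) = Real.log y.1 - Real.log y.2 :=
        div_mul_cancel₀ _ (by positivity)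
      have k3 : δ / (2 * e) * (2 * e) = δ := div_mul_cancel₀ _ (by positivity)
      have m1 := mul_lt_mul_of_pos_right hab'.1 (by positivity : (0 : ℝ) < 2 * e)
      have m2 := mul_lt_mul_of_pos_right hab'.2 (by positivity : (0 : ℝ) < 2 * e)
      have m3 := mul_lt_mul_of_pos_right hcd'.1 (by positivity : (0 : ℝ) < 2 * e)
      have m4 := mul_lt_mul_of_pos_right hcd'.2 (by positivity : (0 : ℝ) < 2 * e)
      rw [Metric.mem_ball, Prod.dist_eq, max_lt_iff, Real.dist_eq, Real.dist_eq, abs_lt, abs_lt]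
      simp only [sub_mul, neg_mul, k1, k2, k3] at m1 m2 m3 m4
      refine ⟨⟨?_, ?_⟩, ⟨?_, ?_⟩⟩ <;> simp only <;> linarith
    exact hball h3

end field

end Pool.Agent.Helper80.VO
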